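import Mathlib
import Pool.Agent.Q72.Res.BReg
import Pool.Agent.Q72.Res.Lacun3

/-!
# MP_fcdc87_an: residual functions need not be idempotent

On the unit ball of `ℂ²` let `f_k` be powers of normalized monomials, `|f_k| ≤ 1` on the ball with
equality exactly on the torus `|z₁| = α_k`, `|z₂| = β_k`, with very large exponents, and
`φ = -2 - Re ∑ h_k`, `h_k = 2 ρ_k f_k / (1 - ρ_k f_k)`, `ρ_k → 1`.  The tails of the series are
competitors for `g_φ`, so `g_φ ≥ -2` and `g_{g_φ} = 0`; but sub-mean value inequalities on discs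
with boundary on the tori `r T_k` give `g_φ ≤ -1/2` near the origin.
-/

set_option autoImplicit false

open Metric Set Filter Topology

namespace Pool.Agent.Results.MP_fcdc87_an.IdempotencyFails

open Q72.Psh Q72.Res

theorem result :
    ∃ D : Set (Cn 2), IsBRegular D ∧ ∃ φ ∈ PSHneg D,
      (∀ z ∈ D, ((-2 : ℝ) : EReal) ≤ res D φ z) ∧
      (∀ z ∈ D, res D (res D φ) z = 0) ∧
      ∃ z ∈ D, res D φ z ≤ ((-(1 / 2) : ℝ) : EReal) := by
  obtain ⟨d⟩ := exists_data
  exact ⟨B2, isBRegular_ball two_pos, _, V_mem d 0, fun z hz => neg_two_le_res d hz,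
    fun z hz => res_res d hz, 0, zero_mem_B2, res_le_neg_half d (by simp)⟩

end Pool.Agent.Results.MP_fcdc87_an.IdempotencyFails
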